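import Mathlib

/-!
# Sign elements from the spectrum of one element

Algebra for the zeta degree: an element `f` of a `ℚ`-algebra with a rational trace function and a
realisation has finitely many eigenvalues with multiplicity; the sign of the multiplicity is realised
by a polynomial in `f`, up to elements in the kernel of the trace form.
-/

set_option autoImplicit false

open Polynomial

namespace Run7.h488.ZD

/-- power sequences of distinct elements are linearly independent -/
lemma powers_indep {Ω : Type*} [Field Ω] (S : Finset Ω) (c : Ω → Ω)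
    (h : ∀ k : ℕ, ∑ x ∈ S, c x * x ^ k = 0) : ∀ x ∈ S, c x = 0 := by
  have h1 := (linearIndependent_monoidHom (Multiplicative ℕ) Ω).comp (powersHom Ω)
    (powersHom Ω).injective
  rw [linearIndependent_iff'] at h1
  refine h1 S c ?_
  funext k
  have h2 := h (Multiplicative.toAdd k)
  rw [Finset.sum_apply]
  simpa [powersHom_apply] using h2

/-- the part of a polynomial which is coprime to `χ` -/
lemma split_coprime (χ : ℚ[X]) : ∀ (d : ℕ) (μ : ℚ[X]), μ ≠ 0 → μ.natDegree ≤ d →
    ∃ (u v : ℚ[X]) (n : ℕ), μ = u * v ∧ IsCoprime u χ ∧ v ∣ χ ^ n := by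
  intro d
  induction d with
  | zero =>
    intro μ h0 hd
    refine ⟨μ, 1, 0, (mul_one _).symm, ?_, by simp⟩
    have h1 : μ.natDegree = 0 := by omega
    obtain ⟨c, hc⟩ := Polynomial.natDegree_eq_zero.1 h1
    have hc0 : c ≠ 0 := by
      rintro rfl
      apply h0
      rw [← hc, map_zero]
    have h2 : IsUnit μ := by
      rw [← hc]
      exact Polynomial.isUnit_C.2 (isUnit_iff_ne_zero.2 hc0)
    obtain ⟨w, hw⟩ := h2
    refine ⟨↑w⁻¹, 0, ?_⟩
    rw [← hw, Units.inv_mul, zero_mul, add_zero]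
  | succ d ih =>
    intro μ h0 hd
    by_cases hcop : IsCoprime μ χ
    · exact ⟨μ, 1, 0, (mul_one _).symm, hcop, by simp⟩
    · have h1 : ∃ z : ℚ[X], Prime z ∧ z ∣ μ ∧ z ∣ χ := by
        by_contra hne
        push Not at hne
        exact hcop (isCoprime_of_prime_dvd (fun h => h0 h.1) hne)
      obtain ⟨z, hz, ⟨μ', hμ'⟩, hzχ⟩ := h1
      have hμ0 : μ' ≠ 0 := by
        rintro rfl
        exact h0 (by rw [hμ', mul_zero])
      have hz1 : 0 < z.natDegree := by
        rw [Nat.pos_iff_ne_zero]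
        intro hz0
        obtain ⟨c, hc⟩ := Polynomial.natDegree_eq_zero.1 hz0
        apply hz.not_isUnit
        rw [← hc]
        refine Polynomial.isUnit_C.2 (isUnit_iff_ne_zero.2 ?_)
        rintro rfl
        exact hz.ne_zero (by rw [← hc, map_zero])
      have hdeg : μ'.natDegree ≤ d := by
        have h2 : μ.natDegree = z.natDegree + μ'.natDegree := by
          rw [hμ', Polynomial.natDegree_mul hz.ne_zero hμ0]
        omega
      obtain ⟨u, v, n, h2, h3, h4⟩ := ih μ' hμ0 hdeg
      refine ⟨u, z * v, n + 1, by rw [hμ', h2]; ring, h3, ?_⟩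
      rw [pow_succ, mul_comm (χ ^ n)]
      exact mul_dvd_mul hzχ h4

section

variable {Ω : Type*} [Field Ω] [Algebra ℚ Ω]

/-- multiplicities are invariant under automorphisms -/
lemma mult_invariant (L : ℚ[X] →ₗ[ℚ] ℚ) (S : Finset Ω) (n : Ω → ℚ) (hS : ∀ x, x ∉ S → n x = 0)
    (hL : ∀ k : ℕ, ∑ x ∈ S, algebraMap ℚ Ω (n x) * x ^ k = algebraMap ℚ Ω (L (X ^ k)))
    (σ : Ω ≃ₐ[ℚ] Ω) (x : Ω) : n (σ x) = n x := by
  classical
  set T : Finset Ω := S ∪ S.image σ with hT
  have h1 : ∀ k : ℕ, ∑ y ∈ T, (algebraMap ℚ Ω (n (σ.symm y)) - algebraMap ℚ Ω (n y)) * y ^ k = 0 := by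
    intro k
    have e1 : ∑ y ∈ T, algebraMap ℚ Ω (n y) * y ^ k = algebraMap ℚ Ω (L (X ^ k)) := by
      rw [← hL k]
      symm
      apply Finset.sum_subset Finset.subset_union_left
      intro y _ hy
      rw [hS y hy, map_zero, zero_mul]
    have e2 : ∑ y ∈ T, algebraMap ℚ Ω (n (σ.symm y)) * y ^ k = algebraMap ℚ Ω (L (X ^ k)) := by
      have e3 : ∑ y ∈ S.image σ, algebraMap ℚ Ω (n (σ.symm y)) * y ^ k =
          ∑ y ∈ T, algebraMap ℚ Ω (n (σ.symm y)) * y ^ k := by
        apply Finset.sum_subset Finset.subset_union_right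
        intro y _ hy
        have h2 : σ.symm y ∉ S := by
          intro h3
          exact hy (Finset.mem_image.2 ⟨_, h3, by simp⟩)
        rw [hS _ h2, map_zero, zero_mul]
      rw [← e3, Finset.sum_image (fun a _ b _ h => σ.injective h)]
      have e4 := congrArg σ (hL k)
      rw [map_sum, AlgEquiv.commutes] at e4
      rw [← e4]
      refine Finset.sum_congr rfl fun y _ => ?_
      rw [map_mul, map_pow, AlgEquiv.commutes, AlgEquiv.symm_apply_apply]
    calc ∑ y ∈ T, (algebraMap ℚ Ω (n (σ.symm y)) - algebraMap ℚ Ω (n y)) * y ^ k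
        = ∑ y ∈ T, (algebraMap ℚ Ω (n (σ.symm y)) * y ^ k - algebraMap ℚ Ω (n y) * y ^ k) :=
          Finset.sum_congr rfl fun y _ => sub_mul _ _ _
      _ = _ := by rw [Finset.sum_sub_distrib, e1, e2, sub_self]
  have h2 := powers_indep T _ h1
  by_cases hx : σ x ∈ T
  · have h3 := h2 _ hx
    rw [AlgEquiv.symm_apply_apply, sub_eq_zero] at h3
    exact ((algebraMap ℚ Ω).injective h3).symm
  · have h3 : σ x ∉ S := fun h => hx (Finset.mem_union_left _ h)
    have h4 : x ∉ S := fun h => hx (Finset.mem_union_right _ (Finset.mem_image_of_mem _ h))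
    rw [hS _ h3, hS _ h4]

/-- the roots of an annihilating polynomial contain all eigenvalues of nonzero multiplicity -/
lemma root_of_annihilator (L : ℚ[X] →ₗ[ℚ] ℚ) (S : Finset Ω) (n : Ω → ℚ)
    (hL : ∀ p : ℚ[X], ∑ x ∈ S, algebraMap ℚ Ω (n x) * aeval x p = algebraMap ℚ Ω (L p))
    (μ : ℚ[X]) (hμ : ∀ p, L (μ * p) = 0) (x : Ω) (hx : x ∈ S) (hn : n x ≠ 0) : aeval x μ = 0 := by
  have h1 : ∀ k : ℕ, ∑ y ∈ S, (algebraMap ℚ Ω (n y) * aeval y μ) * y ^ k = 0 := by
    intro k
    have h2 := hL (μ * X ^ k)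
    rw [hμ, map_zero] at h2
    rw [← h2]
    refine Finset.sum_congr rfl fun y _ => ?_
    rw [map_mul, map_pow, aeval_X, mul_assoc]
  have h2 := powers_indep S _ h1 x hx
  rcases mul_eq_zero.1 h2 with h3 | h3
  · exact absurd ((map_eq_zero _).1 h3) hn
  · exact h3

/-- **the sign polynomial** -/
theorem sign_poly [Normal ℚ Ω] (L : ℚ[X] →ₗ[ℚ] ℚ) (S : Finset Ω) (n : Ω → ℚ)
    (hS : ∀ x, x ∉ S → n x = 0)
    (hL : ∀ p : ℚ[X], ∑ x ∈ S, algebraMap ℚ Ω (n x) * aeval x p = algebraMap ℚ Ω (L p))
    (μ : ℚ[X]) (h0 : μ ≠ 0) (hμ : ∀ p, L (μ * p) = 0) :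
    ∃ g : ℚ[X], μ ∣ g * g - 1 ∧ L g = ∑ x ∈ S, |n x| := by
  classical
  have hroot := root_of_annihilator L S n hL μ hμ
  have hinv := mult_invariant L S n hS (fun k => by
    rw [← hL (X ^ k)]
    refine Finset.sum_congr rfl fun y _ => ?_
    rw [map_pow, aeval_X])
  set N : Finset Ω := S.filter (fun x => n x < 0) with hN
  set χ : ℚ[X] := ∏ x ∈ N, minpoly ℚ x with hχ
  have halg : ∀ x : Ω, IsIntegral ℚ x := fun x => Normal.isIntegral inferInstance x
  have hχ1 : ∀ x, n x < 0 → aeval x χ = 0 := by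
    intro x hx
    have hxS : x ∈ S := by
      by_contra h
      rw [hS x h] at hx
      exact lt_irrefl _ hx
    rw [hχ, map_prod]
    exact Finset.prod_eq_zero (Finset.mem_filter.2 ⟨hxS, hx⟩) (minpoly.aeval ℚ x)
  have hχ2 : ∀ x, aeval x χ = 0 → n x < 0 := by
    intro x hx
    rw [hχ, map_prod, Finset.prod_eq_zero_iff] at hx
    obtain ⟨y, hy, hxy⟩ := hx
    have hy' := (Finset.mem_filter.1 hy).2
    have h1 : minpoly ℚ x = minpoly ℚ y := by
      refine (minpoly.eq_of_irreducible_of_monic (minpoly.irreducible (halg y)) hxy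
        (minpoly.monic (halg y))).symm
    have h2 : IsConjRoot ℚ y x := h1.symm
    obtain ⟨σ, hσ⟩ := isConjRoot_iff_exists_algEquiv.1 h2
    have h3 : y = σ x ∨ x = σ y := by
      first
      | exact Or.inl hσ
      | exact Or.inr hσ
      | exact Or.inl hσ.symm
    rcases h3 with h3 | h3
    · rw [h3, hinv] at hy'
      exact hy'
    · rw [h3, hinv]
      exact hy'
  obtain ⟨u, v, k, h1, h2, h3⟩ := split_coprime χ _ μ h0 le_rfl
  have h4 : IsCoprime u v := (h2.pow_right (n := k)).of_isCoprime_of_dvd_right h3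
  obtain ⟨a, b, hab⟩ := h4
  refine ⟨1 - 2 * (a * u), ?_, ?_⟩
  · have e1 : (1 - 2 * (a * u)) * (1 - 2 * (a * u)) - 1 = μ * (-(4 * a * b)) := by
      have e2 : 1 - a * u = b * v := by rw [← hab]; ring
      have e3 : (1 - 2 * (a * u)) * (1 - 2 * (a * u)) - 1 = -(4 * (a * u)) * (1 - a * u) := by ring
      rw [e3, e2, h1]
      ring
    rw [e1]
    exact Dvd.intro _ rfl
  · have e1 : algebraMap ℚ Ω (L (1 - 2 * (a * u))) = algebraMap ℚ Ω (∑ x ∈ S, |n x|) := by
      rw [← hL, map_sum]
      refine Finset.sum_congr rfl fun x hx => ?_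
      rcases lt_trichotomy (n x) 0 with hn | hn | hn
      · -- negative: `v x = 0`
        have h5 := hroot x hx hn.ne
        have h6 := hχ1 x hn
        have h7 : aeval x u ≠ 0 := by
          intro h8
          obtain ⟨c, d, hcd⟩ := h2
          have h9 := congrArg (aeval x) hcd
          rw [map_add, map_mul, map_mul, h8, h6, mul_zero, mul_zero, add_zero, map_one] at h9
          exact zero_ne_one h9
        have h8 : aeval x v = 0 := by
          rw [h1, map_mul] at h5
          exact (mul_eq_zero.1 h5).resolve_left h7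
        have h9 : aeval x a * aeval x u = 1 := by
          have h10 := congrArg (aeval x) hab
          rw [map_add, map_mul, map_mul, h8, mul_zero, add_zero, map_one] at h10
          exact h10
        rw [abs_of_neg hn, map_sub, map_mul, map_mul, h9, map_one, map_neg, map_ofNat]
        ring
      · rw [hn, abs_zero, map_zero, zero_mul]
      · have h5 := hroot x hx hn.ne'
        have h6 : aeval x v ≠ 0 := by
          intro h7
          obtain ⟨c, hc⟩ := h3
          have h8 : aeval x (χ ^ k) = 0 := by rw [hc, map_mul, h7, zero_mul]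
          rw [map_pow] at h8
          have h9 : aeval x χ = 0 := by
            by_contra h10
            exact pow_ne_zero k h10 h8
          exact absurd (hχ2 x h9) (not_lt.2 hn.le)
        have h7 : aeval x u = 0 := by
          rw [h1, map_mul] at h5
          exact (mul_eq_zero.1 h5).resolve_right h6
        rw [abs_of_pos hn, map_sub, map_mul, map_mul, h7, mul_zero, mul_zero, map_one, sub_zero,
          mul_one]
    exact (algebraMap ℚ Ω).injective e1

end

end Run7.h488.ZD
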