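import Pool.Agent.Run7.h488.ZD.Exist
import Pool.Agent.R484.NCc

/-!
# The zeta degree of an object
-/

set_option autoImplicit false
set_option linter.unusedSectionVars false

open CategoryTheory Limits MonoidalCategory Polynomial
open Pool.Agent.Y112.SR Pool.Agent.Y112.KD Pool.Agent.Y112.SC Pool.Agent.R905 Pool.Agent.R484.NC

namespace Run7.h488.ZD

universe v u w

section

variable {C : Type u} [Category.{v} C] [Preadditive C] [Linear ℚ C] [MonoidalCategory C]
  [MonoidalPreadditive C] [MonoidalLinear ℚ C] [SymmetricCategory C] [RightRigidCategory C]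

/-- `m` is the spectrum of `f`, the function of the multiplicities of the zeros and the poles of its
zeta function: `m` is a function with integer values on the algebraic numbers with finite support,
`m 0 = 0`, and the trace of `f ^ k` is the sum of the numbers `m (x) x ^ k` for all `k ≥ 1`.
Equivalently, the zeta function `exp (∑ Tr (f ^ k) t ^ k / k)` is the product of the factors
`(1 - x t) ^ (- m (x))`. -/
def IsSpectrum (hU : UnitQ C) {M : C} (f : End M) (m : AlgebraicClosure ℚ →₀ ℤ) : Prop :=
  m 0 = 0 ∧ ∀ k : ℕ, 1 ≤ k → m.sum (fun x c => (c : AlgebraicClosure ℚ) * x ^ k) =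
    algebraMap ℚ (AlgebraicClosure ℚ) (ctr hU (M := M) (pw (M := M) f k))

/-- The number of the zeros and the poles of the zeta function, counted with multiplicities. -/
noncomputable def zetaDegree (m : AlgebraicClosure ℚ →₀ ℤ) : ℕ := m.sum fun _ c => c.natAbs

lemma zetaDegree_eq (m : AlgebraicClosure ℚ →₀ ℤ) :
    ((m.sum (fun _ c => |c|) : ℤ) : ℚ) = (zetaDegree m : ℚ) := by
  rw [zetaDegree, Finsupp.sum, Finsupp.sum]
  push_cast
  refine Finset.sum_congr rfl fun x _ => ?_
  rw [Nat.cast_natAbs, Int.cast_abs]

lemma pw_eq {M : C} (f : End M) (k : ℕ) : (pw (M := M) f k : End M) = f ^ k := by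
  induction k with
  | zero => rfl
  | succ k ih =>
    rw [pow_succ, ← ih]
    rfl

/-- the trace as a linear map on the endomorphism algebra -/
noncomputable def tauHom (hU : UnitQ C) (M : C) : End M →ₗ[ℚ] ℚ := trq hU M

lemma tauHom_apply (hU : UnitQ C) {M : C} (f : M ⟶ M) : tauHom hU M f = ctr hU f := rfl

variable {K : Type w} [Field K] (R : SuperRealisation C K)

/-- the realisation as a homomorphism of rings -/
noncomputable def opHom (M : C) : End M →+* Module.End K (R.H.obj M) where
  toFun f := op R (M := M) f
  map_one' := op_id R M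
  map_mul' x y := op_comp R y x
  map_zero' := by
    change op R (0 : M ⟶ M) = 0
    rw [op, Functor.map_zero]
    rfl
  map_add' x y := op_add R x y

lemma trace_opHom (hU : UnitQ C) (M : C) (a : End M) :
    LinearMap.trace K (R.H.obj M) ((evp R M - (1 - evp R M)) * opHom R M a) =
      (tauHom hU M a : K) := by
  have h1 : ((ctr hU (M := M) a : ℚ) : K) = str R (M := M) a := ctr_eq R hU (M := M) a
  rw [str_eq] at h1
  exact h1.symm

/-- the projector of an involution -/
lemma half_idem {A : Type*} [Ring A] [Algebra ℚ A] (w : A) :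
    ((2⁻¹ : ℚ) • (1 + w)) * ((2⁻¹ : ℚ) • (1 + w)) - (2⁻¹ : ℚ) • (1 + w) =
      (4⁻¹ : ℚ) • (w * w - 1) := by
  rw [smul_mul_smul_comm, add_mul, mul_add, mul_add, one_mul, mul_one, one_mul]
  module

include R in
/-- the zeta function of an endomorphism is rational -/
theorem exists_unique_spectrum (hU : UnitQ C) {M : C} (f : End M) : ∃! m, IsSpectrum hU f m := by
  have hc := R_charZero R
  have h0 := R.finite M
  obtain ⟨m, h1, h2⟩ := exists_spectrum (opHom R M) (evp R M) (evp_idem R M)
    (fun a => op_comm R (M := M) a) (tauHom hU M) (trace_opHom R hU M) f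
  refine ⟨m, ⟨h1, fun k hk => ?_⟩, fun m' hm' => ?_⟩
  · rw [h2 k hk, pw_eq]
    rfl
  · refine spectrum_unique m' m hm'.1 h1 fun k hk => ?_
    rw [hm'.2 k hk, h2 k hk, pw_eq]
    rfl

include R in
/-- a polynomial in `f` is a numerical involution whose trace is at least the zeta degree -/
theorem exists_involution (hU : UnitQ C) {M : C} (f : End M) (m : AlgebraicClosure ℚ →₀ ℤ)
    (hm : IsSpectrum hU f m) : ∃ g : ℚ[X], NumInvolution hU (M := M) (aeval f g) ∧
      (zetaDegree m : ℚ) ≤ ctr hU (M := M) (aeval f g) := by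
  have hc := R_charZero R
  have h0 := R.finite M
  have hn := normal_closure
  let T : Module.End K (R.H.obj M) →ₗ[K] K :=
    LinearMap.trace K (R.H.obj M) ∘ₗ LinearMap.mulLeft K (evp R M - (1 - evp R M))
  obtain ⟨g, h1, h2⟩ := sign_element (opHom R M) T (tauHom hU M) (trace_opHom R hU M) f m
    hm.1 (fun k hk => by
      rw [hm.2 k hk, pw_eq]
      rfl)
  refine ⟨g, fun b => ?_, ?_⟩
  · rw [ctr_comm R]
    exact h1 b
  · rw [← zetaDegree_eq]
    exact h2

include R in
/-- every trace of a numerical involution is bounded by a zeta degree -/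
theorem exists_of_involution (hU : UnitQ C) {M : C} (w : End M) (hw : NumInvolution hU (M := M) w) :
    ∃ (f : End M) (m : AlgebraicClosure ℚ →₀ ℤ), IsSpectrum hU f m ∧
      ctr hU (M := M) w ≤ (zetaDegree m : ℚ) := by
  classical
  have hc := R_charZero R
  obtain ⟨r, hr, -⟩ := involution_number R hU hw
  have hone := ctr_one R hU M
  set z : End M := (2⁻¹ : ℚ) • ((1 : End M) + w) with hz
  -- the traces of `z` and of `1 - z`
  have hτ1 : tauHom hU M 1 = 2 * evenDim R M - totalDim R M := hone
  have hτw : tauHom hU M w = totalDim R M - 2 * r := hr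
  have hτz : tauHom hU M z = (evenDim R M : ℚ) - r := by
    rw [hz, map_smul, map_add, hτ1, hτw, smul_eq_mul]
    ring
  have hzz : ∀ g : End M, tauHom hU M (z * (z * g)) = tauHom hU M (z * g) := by
    intro g
    have h1 : z * z - z = (4⁻¹ : ℚ) • (w * w - 1) := half_idem w
    have h2 : tauHom hU M ((z * z - z) * g) = 0 := by
      rw [h1, smul_mul_assoc, map_smul]
      have h3 : tauHom hU M ((w * w - 1) * g) = 0 := by
        have h4 := hw g
        rw [ctr_comm R] at h4
        exact h4
      rw [h3, smul_zero]
    rw [sub_mul, map_sub, sub_eq_zero, mul_assoc] at h2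
    exact h2
  have hpow : ∀ k : ℕ, tauHom hU M ((1 + z) ^ k) =
      ((evenDim R M : ℚ) - r) * 2 ^ k + ((evenDim R M : ℚ) - totalDim R M + r) := by
    intro k
    have h1 := pow_one_add (tauHom hU M) z hzz k 1
    rw [mul_one, mul_one, hτz, hτ1] at h1
    rw [h1]
    ring
  set a : ℤ := (evenDim R M : ℤ) - r with ha
  set b : ℤ := (evenDim R M : ℤ) - totalDim R M + r with hb
  let m : AlgebraicClosure ℚ →₀ ℤ := Finsupp.single 2 a + Finsupp.single 1 b
  refine ⟨(1 + z : End M), m, ⟨?_, fun k hk => ?_⟩, ?_⟩
  · simp [m, Finsupp.single_apply]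
  · rw [pw_eq]
    change _ = algebraMap ℚ (AlgebraicClosure ℚ) (tauHom hU M ((1 + z) ^ k))
    rw [hpow]
    rw [Finsupp.sum_add_index', Finsupp.sum_single_index, Finsupp.sum_single_index]
    · rw [one_pow, mul_one, ha, hb]
      push_cast
      simp only [map_add, map_sub, map_mul, map_pow, map_natCast, map_ofNat]
    · simp
    · simp
    · intro x; simp
    · intro x c d
      push_cast
      ring
  · have h1 : (zetaDegree m : ℤ) = |a| + |b| := by
      have h2 : zetaDegree m = a.natAbs + b.natAbs := by
        rw [zetaDegree]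
        have h3 : (1 : AlgebraicClosure ℚ) ≠ 2 := by norm_num
        rw [Finsupp.sum_of_support_subset (s := {1, 2})]
        · rw [Finset.sum_pair h3]
          simp [m, Finsupp.single_apply, h3, h3.symm]
          ring
        · intro x hx
          by_contra h4
          apply Finsupp.mem_support_iff.1 hx
          simp only [Finset.mem_insert, Finset.mem_singleton, not_or] at h4
          simp [m, Finsupp.single_apply, Ne.symm h4.1, Ne.symm h4.2]
        · intro x _; rfl
      rw [h2]
      push_cast
      rfl
    have h2 : ctr hU (M := M) w = ((a - b : ℤ) : ℚ) := by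
      rw [hr, ha, hb]
      push_cast
      ring
    have h3 : a - b ≤ (zetaDegree m : ℤ) := by
      rw [h1]
      have h4 := le_abs_self a
      have h5 := neg_abs_le b
      omega
    rw [h2]
    exact_mod_cast h3

end

end Run7.h488.ZD
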