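import Pool.Agent.Run7.h488.ZD.Ring
import Pool.Agent.N181.Mod.LinA

/-!
# Existence and uniqueness of the spectrum
-/

set_option autoImplicit false

open Polynomial

namespace Run7.h488.ZD

/-- the algebraic closure of the rational numbers is algebraic -/
theorem alg_closure : Algebra.IsAlgebraic ℚ (AlgebraicClosure ℚ) := by
  have h := AlgebraicClosure.isAlgebraic ℚ
  have e : (DivisionRing.toRatAlgebra : Algebra ℚ (AlgebraicClosure ℚ)) =
      AlgebraicClosure.instAlgebra ℚ := Subsingleton.elim _ _
  rw [← e] at h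
  exact h

/-- the algebraic closure of the rational numbers is normal -/
theorem normal_closure : Normal ℚ (AlgebraicClosure ℚ) := by
  have h := alg_closure
  exact ⟨fun x => IsAlgClosed.splits _⟩

/-- integer multiplicities of nonzero algebraic numbers are determined by the power sums -/
lemma spectrum_unique {Ω : Type*} [Field Ω] [CharZero Ω] (m m' : Ω →₀ ℤ) (h0 : m 0 = 0)
    (h0' : m' 0 = 0)
    (h : ∀ k : ℕ, 1 ≤ k → m.sum (fun x c => (c : Ω) * x ^ k) = m'.sum (fun x c => (c : Ω) * x ^ k)) :
    m = m' := by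
  classical
  set S : Finset Ω := m.support ∪ m'.support with hS
  have h1 : ∀ (n : Ω →₀ ℤ) (k : ℕ), n.support ⊆ S →
      n.sum (fun x c => (c : Ω) * x ^ k) = ∑ x ∈ S, (n x : Ω) * x ^ k := by
    intro n k hn
    rw [Finsupp.sum]
    apply Finset.sum_subset hn
    intro x _ hx
    rw [Finsupp.notMem_support_iff.1 hx, Int.cast_zero, zero_mul]
  have h2 : ∀ k : ℕ, ∑ x ∈ S, (((m x : Ω) - (m' x : Ω)) * x) * x ^ k = 0 := by
    intro k
    have h3 := h (k + 1) (by omega)
    rw [h1 m _ Finset.subset_union_left, h1 m' _ Finset.subset_union_right, ← sub_eq_zero,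
      ← Finset.sum_sub_distrib] at h3
    rw [← h3]
    refine Finset.sum_congr rfl fun x _ => ?_
    rw [pow_succ']
    ring
  have h3 := powers_indep S _ h2
  ext x
  by_cases hx : x ∈ S
  · rcases eq_or_ne x 0 with rfl | hx0
    · rw [h0, h0']
    · have h4 := (mul_eq_zero.1 (h3 x hx)).resolve_right hx0
      exact_mod_cast sub_eq_zero.1 h4
  · have h4 : x ∉ m.support := fun h => hx (Finset.mem_union_left _ h)
    have h5 : x ∉ m'.support := fun h => hx (Finset.mem_union_right _ h)
    rw [Finsupp.notMem_support_iff.1 h4, Finsupp.notMem_support_iff.1 h5]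

/-- the power sums of a multiset as a sum with multiplicities -/
lemma multiset_sum {L : Type*} [Field L] [DecidableEq L] (s : Multiset L) (S : Finset L)
    (hS : s.toFinset ⊆ S) (k : ℕ) : (s.map (· ^ k)).sum = ∑ x ∈ S, (s.count x : L) * x ^ k := by
  rw [Finset.sum_multiset_map_count]
  have h1 : ∑ x ∈ s.toFinset, s.count x • x ^ k = ∑ x ∈ s.toFinset, (s.count x : L) * x ^ k :=
    Finset.sum_congr rfl fun x _ => nsmul_eq_mul _ _
  rw [h1]
  apply Finset.sum_subset hS
  intro x _ hx
  rw [Multiset.count_eq_zero.2 (fun h => hx (Multiset.mem_toFinset.2 h)), Nat.cast_zero, zero_mul]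

section

variable {A : Type*} [Ring A] [Algebra ℚ A] {K : Type*} [Field K] [CharZero K]
  {V : Type*} [AddCommGroup V] [Module K V] [Module.Finite K V]
  (ρ : A →+* Module.End K V) (e : Module.End K V) (he : e * e = e)
  (hcomm : ∀ a, Commute (ρ a) e) (τ : A →ₗ[ℚ] ℚ)
  (hτ : ∀ a, LinearMap.trace K V ((e - (1 - e)) * ρ a) = (τ a : K))

include he hcomm hτ

/-- **existence of the spectrum** -/
theorem exists_spectrum (f : A) : ∃ m : AlgebraicClosure ℚ →₀ ℤ, m 0 = 0 ∧
    ∀ k : ℕ, 1 ≤ k → m.sum (fun x c => (c : AlgebraicClosure ℚ) * x ^ k) =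
      algebraMap ℚ (AlgebraicClosure ℚ) (τ (f ^ k)) := by
  classical
  let T : Module.End K V →ₗ[K] K :=
    LinearMap.trace K V ∘ₗ LinearMap.mulLeft K (e - (1 - e))
  obtain ⟨μ, hμ0, hμ⟩ := exists_annihilator ρ T τ hτ f
  let L := AlgebraicClosure K
  have hL0 : CharZero L := charZero_of_injective_algebraMap (algebraMap K L).injective
  -- the two operators
  let ψ : Module.End K V := e * ρ f
  let ψ' : Module.End K V := (1 - e) * ρ f
  have hc : Commute e (ρ f) := (hcomm f).symm
  have hc' : Commute (1 - e) (ρ f) := (Commute.one_left _).sub_left hc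
  have hpw : ∀ k : ℕ, e ^ (k + 1) = e := fun k => by
    have h := IsIdempotentElem.pow_succ_eq k (show IsIdempotentElem e from he)
    exact h
  have he' : (1 - e) * (1 - e) = 1 - e := by
    rw [mul_sub, sub_mul, sub_mul, he]
    simp
  have hpw' : ∀ k : ℕ, (1 - e) ^ (k + 1) = 1 - e := fun k => by
    have h := IsIdempotentElem.pow_succ_eq k (show IsIdempotentElem (1 - e) from he')
    exact h
  have htr : ∀ k : ℕ, (τ (f ^ (k + 1)) : K) = LinearMap.trace K V (ψ ^ (k + 1)) -
      LinearMap.trace K V (ψ' ^ (k + 1)) := by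
    intro k
    rw [← hτ, map_pow, hc.mul_pow, hc'.mul_pow, hpw, hpw', ← map_sub, sub_mul]
  let r : Multiset L := (LinearMap.baseChange L ψ).charpoly.roots
  let r' : Multiset L := (LinearMap.baseChange L ψ').charpoly.roots
  have hr : ∀ (θ : Module.End K V) (k : ℕ), algebraMap K L (LinearMap.trace K V (θ ^ k)) =
      ((LinearMap.baseChange L θ).charpoly.roots.map (· ^ k)).sum := by
    intro θ k
    rw [← Pool.Agent.N181.Mod.trace_pow_eq, ← LinearMap.trace_baseChange, LinearMap.baseChange_pow]
  let S : Finset L := (r.toFinset ∪ r'.toFinset).erase 0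
  let n : L → ℤ := fun x => (r.count x : ℤ) - (r'.count x : ℤ)
  have hsum : ∀ k : ℕ, 1 ≤ k → ∑ x ∈ S, (n x : L) * x ^ k = algebraMap ℚ L (τ (f ^ k)) := by
    intro k hk
    obtain ⟨k, rfl⟩ := Nat.exists_eq_add_of_le' hk
    have h1 : algebraMap ℚ L (τ (f ^ (k + 1))) = algebraMap K L ((τ (f ^ (k + 1)) : ℚ) : K) := by
      rw [map_ratCast, eq_ratCast]
    rw [h1, htr, map_sub, hr, hr]
    have h2 := multiset_sum r (r.toFinset ∪ r'.toFinset) Finset.subset_union_left (k + 1)
    have h3 := multiset_sum r' (r.toFinset ∪ r'.toFinset) Finset.subset_union_right (k + 1)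
    have h4 : ((LinearMap.baseChange L ψ).charpoly.roots.map (· ^ (k + 1))).sum =
        ∑ x ∈ r.toFinset ∪ r'.toFinset, (r.count x : L) * x ^ (k + 1) := h2
    have h5 : ((LinearMap.baseChange L ψ').charpoly.roots.map (· ^ (k + 1))).sum =
        ∑ x ∈ r.toFinset ∪ r'.toFinset, (r'.count x : L) * x ^ (k + 1) := h3
    rw [h4, h5, ← Finset.sum_sub_distrib]
    have h6 : ∀ x, (r.count x : L) * x ^ (k + 1) - (r'.count x : L) * x ^ (k + 1) =
        (n x : L) * x ^ (k + 1) := by
      intro x
      simp only [n]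
      push_cast
      ring
    rw [Finset.sum_congr rfl fun x _ => h6 x]
    apply Finset.sum_subset (Finset.erase_subset _ _)
    intro x hx hx'
    have h7 : x = 0 := by
      by_contra h8
      exact hx' (Finset.mem_erase.2 ⟨h8, hx⟩)
    rw [h7, zero_pow (by omega), mul_zero]
  -- the eigenvalues of nonzero multiplicity are algebraic
  have hext : ∀ (p : ℚ[X]) (k : ℕ), 1 ≤ k →
      ∑ x ∈ S, (n x : L) * aeval x p * x ^ k = algebraMap ℚ L (τ (aeval f p * f ^ k)) := by
    intro p
    induction p using Polynomial.induction_on' with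
    | add p q hp hq =>
      intro k hk
      rw [map_add, add_mul, map_add, map_add, ← hp k hk, ← hq k hk, ← Finset.sum_add_distrib]
      refine Finset.sum_congr rfl fun x _ => ?_
      rw [map_add]
      ring
    | monomial j c =>
      intro k hk
      have h1 : (monomial j c : ℚ[X]) = c • X ^ j := by
        rw [← Polynomial.C_mul_X_pow_eq_monomial, Polynomial.smul_eq_C_mul]
      rw [h1, map_smul, map_pow, aeval_X, smul_mul_assoc, map_smul, smul_eq_mul, map_mul, ← pow_add,
        ← hsum (j + k) (by omega), Finset.mul_sum]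
      refine Finset.sum_congr rfl fun x _ => ?_
      rw [map_smul, map_pow, aeval_X, Algebra.smul_def, pow_add]
      ring
  have hroot : ∀ x ∈ S, n x ≠ 0 → aeval x μ = 0 := by
    intro x hx hn
    have hx0 : x ≠ 0 := (Finset.mem_erase.1 hx).1
    have h1 : ∀ k : ℕ, ∑ y ∈ S, ((n y : L) * aeval y μ * y) * y ^ k = 0 := by
      intro k
      have h2 := hext μ (k + 1) (by omega)
      rw [hμ, map_zero] at h2
      rw [← h2]
      refine Finset.sum_congr rfl fun y _ => ?_
      rw [pow_succ']
      ring
    have h2 := (mul_eq_zero.1 (powers_indep S _ h1 x hx)).resolve_right hx0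
    exact (mul_eq_zero.1 h2).resolve_left (by exact_mod_cast hn)
  -- transport to the algebraic numbers
  have halg := alg_closure
  let ι : AlgebraicClosure ℚ →ₐ[ℚ] L := IsAlgClosed.lift
  have hrange : ∀ x ∈ S, x ∉ Set.range ι → n x = 0 := by
    intro x hx hx'
    by_contra hn
    apply hx'
    have h1 := hroot x hx hn
    have h2 : IsIntegral ℚ x := by
      have h3 : IsAlgebraic ℚ x := ⟨μ, hμ0, h1⟩
      exact h3.isIntegral
    have h3 := h2.mem_range_algHom_of_minpoly_splits (IsAlgClosed.splits _) ι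
    exact h3
  let S' : Finset (AlgebraicClosure ℚ) := S.preimage ι ι.injective.injOn
  let m : AlgebraicClosure ℚ →₀ ℤ :=
    Finsupp.onFinset S' (fun x => if ι x ∈ S then n (ι x) else 0) (by
      intro x hx
      rw [Finset.mem_preimage]
      by_contra h
      exact hx (if_neg h))
  refine ⟨m, ?_, fun k hk => ?_⟩
  · change (if ι 0 ∈ S then n (ι 0) else 0) = 0
    rw [if_neg]
    rw [map_zero]
    exact fun h => (Finset.mem_erase.1 h).1 rfl
  · have h1 : m.sum (fun x c => (c : AlgebraicClosure ℚ) * x ^ k) =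
        ∑ x ∈ S', (n (ι x) : AlgebraicClosure ℚ) * x ^ k := by
      have h2 : m.sum (fun x c => (c : AlgebraicClosure ℚ) * x ^ k) =
          ∑ x ∈ S', (m x : AlgebraicClosure ℚ) * x ^ k := by
        apply Finsupp.onFinset_sum
        intro x
        rw [Int.cast_zero, zero_mul]
      rw [h2]
      refine Finset.sum_congr rfl fun x hx => ?_
      have h3 : m x = n (ι x) := if_pos (Finset.mem_preimage.1 hx)
      rw [h3]
    rw [h1]
    have hinj : Function.Injective ι := ι.injective
    apply hinj
    rw [map_sum, AlgHom.commutes, ← hsum k hk]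
    have h2 := Finset.sum_preimage ι S ι.injective.injOn (fun x => (n x : L) * x ^ k) (by
      intro x hx hx'
      rw [hrange x hx hx', Int.cast_zero, zero_mul])
    rw [← h2]
    refine Finset.sum_congr rfl fun x _ => ?_
    rw [map_mul, map_pow, map_intCast]

end

end Run7.h488.ZD
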