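import Pool.Agent.Run7.h488.ZD.Exist
import Pool.Agent.H578R3.SgnLin

/-!
# Zeta degrees in algebras with a rational super trace
-/

set_option autoImplicit false

open Polynomial

namespace Run7.h488.ZD

/-- the number of zeros and poles, counted with multiplicities -/
noncomputable def zdeg (m : AlgebraicClosure ℚ →₀ ℤ) : ℕ := m.sum fun _ c => c.natAbs

lemma zdeg_eq (m : AlgebraicClosure ℚ →₀ ℤ) :
    ((m.sum (fun _ c => |c|) : ℤ) : ℚ) = (zdeg m : ℚ) := by
  rw [zdeg, Finsupp.sum, Finsupp.sum]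
  push_cast
  refine Finset.sum_congr rfl fun x _ => ?_
  rw [Nat.cast_natAbs, Int.cast_abs]

/-- the degree of a spectrum with the eigenvalues `2` and `1` -/
lemma zdeg_two (a b : ℤ) : zdeg (Finsupp.single 2 a + Finsupp.single 1 b) = a.natAbs + b.natAbs := by
  classical
  have h3 : (1 : AlgebraicClosure ℚ) ≠ 2 := by norm_num
  rw [zdeg, Finsupp.sum_of_support_subset (s := {1, 2})]
  · rw [Finset.sum_pair h3]
    simp [h3, h3.symm]
    ring
  · intro x hx
    by_contra h4
    apply Finsupp.mem_support_iff.1 hx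
    simp only [Finset.mem_insert, Finset.mem_singleton, not_or] at h4
    simp [Ne.symm h4.1, Ne.symm h4.2]
  · intro x _; rfl

/-- the power sums of a spectrum with the eigenvalues `2` and `1` -/
lemma sum_two (a b : ℤ) (k : ℕ) :
    (Finsupp.single 2 a + Finsupp.single 1 b : AlgebraicClosure ℚ →₀ ℤ).sum
      (fun x c => (c : AlgebraicClosure ℚ) * x ^ k) =
      algebraMap ℚ (AlgebraicClosure ℚ) (a * 2 ^ k + b) := by
  rw [Finsupp.sum_add_index', Finsupp.sum_single_index, Finsupp.sum_single_index]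
  · rw [one_pow, mul_one]
    simp only [map_add, map_mul, map_pow, map_intCast, map_ofNat]
  · simp
  · simp
  · intro x; simp
  · intro x c d
    push_cast
    ring

section

variable {A : Type*} [Ring A] [Algebra ℚ A]

/-- `m` is the spectrum of `f` with respect to the trace `τ`. -/
def Spec (τ : A →ₗ[ℚ] ℚ) (f : A) (m : AlgebraicClosure ℚ →₀ ℤ) : Prop :=
  m 0 = 0 ∧ ∀ k : ℕ, 1 ≤ k → m.sum (fun x c => (c : AlgebraicClosure ℚ) * x ^ k) =
    algebraMap ℚ (AlgebraicClosure ℚ) (τ (f ^ k))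

variable {K : Type*} [Field K] [CharZero K]
  {V : Type*} [AddCommGroup V] [Module K V] [Module.Finite K V]
  (ρ : A →+* Module.End K V) (e : Module.End K V) (he : e * e = e)
  (hcomm : ∀ a, Commute (ρ a) e) (τ : A →ₗ[ℚ] ℚ)
  (hτ : ∀ a, LinearMap.trace K V ((e - (1 - e)) * ρ a) = (τ a : K))

include he hτ in
lemma tau_one : ∃ a : ℕ, LinearMap.trace K V e = (a : K) ∧
    τ 1 = 2 * (a : ℚ) - Module.finrank K V := by
  obtain ⟨a, b, c, -, h2, -⟩ := Pool.Agent.H578R3.Sgn.main (p := e) (T := 1) he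
    (Commute.one_left _) (d := LinearMap.trace K V (e - (1 - e))) (fun r => by rw [one_pow, mul_one])
  refine ⟨a + c, by rw [h2]; push_cast; rfl, ?_⟩
  have h3 := hτ 1
  rw [map_one, mul_one, map_sub, map_sub, h2, LinearMap.trace_one] at h3
  have h4 : (((2 * ((a + c : ℕ) : ℚ) - Module.finrank K V : ℚ)) : K) = (τ 1 : K) := by
    rw [← h3]
    push_cast
    ring
  exact_mod_cast h4.symm

include he hcomm hτ in
/-- the number of a numerical involution -/
lemma involution_ring (w : A) (hw : ∀ b, τ ((w * w - 1) * b) = 0) :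
    ∃ r : ℕ, τ w = (Module.finrank K V : ℚ) - 2 * r ∧
      (r = 0 → ∀ N : ℕ, 1 ≤ N → Module.finrank K V ≤ N →
        e = 1 - (1 - (ρ ((2⁻¹ : ℚ) • (1 + w))) ^ N) ^ N) := by
  set z : A := (2⁻¹ : ℚ) • (1 + w) with hz
  have h1 : z * z - z = (4⁻¹ : ℚ) • (w * w - 1) := by
    rw [hz, smul_mul_smul_comm, add_mul, mul_add, mul_add, one_mul, mul_one, one_mul]
    module
  have hzz : ∀ g : A, τ (z * (z * g)) = τ (z * g) := by
    intro g
    have h2 : τ ((z * z - z) * g) = 0 := by
      rw [h1, smul_mul_assoc, map_smul, hw, smul_zero]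
    rw [sub_mul, map_sub, sub_eq_zero, mul_assoc] at h2
    exact h2
  have hpow : ∀ r : ℕ, τ (z ^ (r + 1)) = τ z := by
    intro r
    induction r with
    | zero => rw [zero_add, pow_one]
    | succ r ih =>
      rw [← ih, pow_succ' z (r + 1), pow_succ' z r, hzz]
  have hconst : ∀ r : ℕ, LinearMap.trace K V ((e - (1 - e)) * ρ z ^ (r + 1)) = (τ z : K) := by
    intro r
    rw [← map_pow, hτ, hpow]
  obtain ⟨a, b, c, hd, hpc, hfin⟩ := Pool.Agent.H578R3.Sgn.main he (hcomm z) hconst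
  obtain ⟨a₀, ha₀, hone⟩ := tau_one ρ e he τ hτ
  have h3 : (a₀ : ℚ) = a + c := by
    have h4 : (a₀ : K) = ((a + c : ℕ) : K) := by rw [← ha₀, hpc]; push_cast; rfl
    have h5 : a₀ = a + c := by exact_mod_cast h4
    rw [h5]; push_cast; rfl
  have h4 : τ z = (a : ℚ) - b := by
    have h5 : ((τ z : ℚ) : K) = (((a : ℚ) - b : ℚ) : K) := by
      rw [hd]; push_cast; rfl
    exact_mod_cast h5
  have h5 : τ w = 2 * τ z - τ 1 := by
    rw [hz, map_smul, map_add, smul_eq_mul]
    ring
  refine ⟨b + c, ?_, fun h N hN1 hN => ?_⟩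
  · rw [h5, h4, hone, h3]
    push_cast
    ring
  · exact hfin (by omega) (by omega) N hN1 hN

/-- numerical idempotents from numerical involutions -/
lemma half_idem (w : A) (hw : ∀ b, τ ((w * w - 1) * b) = 0) (g : A) :
    τ ((2⁻¹ : ℚ) • (1 + w) * ((2⁻¹ : ℚ) • (1 + w) * g)) = τ ((2⁻¹ : ℚ) • (1 + w) * g) := by
  set z : A := (2⁻¹ : ℚ) • (1 + w) with hz
  have h1 : z * z - z = (4⁻¹ : ℚ) • (w * w - 1) := by
    rw [hz, smul_mul_smul_comm, add_mul, mul_add, mul_add, one_mul, mul_one, one_mul]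
    module
  have h2 : τ ((z * z - z) * g) = 0 := by
    rw [h1, smul_mul_assoc, map_smul, hw, smul_zero]
  rw [sub_mul, map_sub, sub_eq_zero, mul_assoc] at h2
  exact h2

include he hcomm hτ in
/-- rationality -/
theorem spec_unique (f : A) : ∃! m, Spec τ f m := by
  obtain ⟨m, h1, h2⟩ := exists_spectrum ρ e he hcomm τ hτ f
  refine ⟨m, ⟨h1, h2⟩, fun m' hm' => ?_⟩
  exact spectrum_unique m' m hm'.1 h1 fun k hk => by rw [hm'.2 k hk, h2 k hk]

include he hcomm hτ in
/-- the zeta degree is at most the dimension; if it is at least the dimension minus one then the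
projector is the value of a polynomial at `f` -/
theorem spec_bound (f : A) (m : AlgebraicClosure ℚ →₀ ℤ) (hm : Spec τ f m) :
    zdeg m ≤ Module.finrank K V ∧ (Module.finrank K V ≤ zdeg m + 1 →
      ∃ g : ℚ[X], ρ (aeval f g) = e) := by
  have hn := normal_closure
  let T : Module.End K V →ₗ[K] K := LinearMap.trace K V ∘ₗ LinearMap.mulLeft K (e - (1 - e))
  obtain ⟨g, h1, h2⟩ := sign_element ρ T τ hτ f m hm.1 hm.2
  obtain ⟨r, hr, hfin⟩ := involution_ring ρ e he hcomm τ hτ (aeval f g) h1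
  rw [zdeg_eq, hr] at h2
  have h3 : (zdeg m : ℚ) + 2 * r ≤ Module.finrank K V := by linarith
  have h4 : zdeg m + 2 * r ≤ Module.finrank K V := by exact_mod_cast h3
  refine ⟨by omega, fun hd => ?_⟩
  set N := max 1 (Module.finrank K V) with hN
  have he' := hfin (by omega) N (le_max_left _ _) (le_max_right _ _)
  refine ⟨1 - (1 - (Polynomial.C (2⁻¹ : ℚ) * (1 + g)) ^ N) ^ N, ?_⟩
  rw [he']
  have h5 : aeval f (1 - (1 - (Polynomial.C (2⁻¹ : ℚ) * (1 + g)) ^ N) ^ N) =
      1 - (1 - ((2⁻¹ : ℚ) • (1 + aeval f g)) ^ N) ^ N := by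
    simp only [map_sub, map_mul, map_pow, map_one, map_add, aeval_C]
    rw [Algebra.smul_def]
  rw [h5]
  simp only [map_sub, map_pow, map_one]

include he hcomm hτ in
/-- every element can be replaced by one whose zeta degree is at least as large and has the parity
of the dimension -/
theorem spec_improve (f : A) (m : AlgebraicClosure ℚ →₀ ℤ) (hm : Spec τ f m) :
    ∃ f' m', Spec τ f' m' ∧ zdeg m ≤ zdeg m' ∧ ∃ r : ℕ, Module.finrank K V = zdeg m' + 2 * r := by
  have hn := normal_closure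
  let T : Module.End K V →ₗ[K] K := LinearMap.trace K V ∘ₗ LinearMap.mulLeft K (e - (1 - e))
  obtain ⟨g, h1, h2⟩ := sign_element ρ T τ hτ f m hm.1 hm.2
  obtain ⟨r, hr, -⟩ := involution_ring ρ e he hcomm τ hτ (aeval f g) h1
  rw [zdeg_eq, hr] at h2
  have h3 : (zdeg m : ℚ) + 2 * r ≤ Module.finrank K V := by linarith
  have h4 : zdeg m + 2 * r ≤ Module.finrank K V := by exact_mod_cast h3
  obtain ⟨a₀, ha₀, hone⟩ := tau_one ρ e he τ hτ
  set w := aeval f g with hw
  set z : A := (2⁻¹ : ℚ) • (1 + w) with hz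
  have hτz : τ z = ((a₀ : ℤ) - r : ℤ) := by
    have h5 : τ z = 2⁻¹ * (τ 1 + τ w) := by
      rw [hz, map_smul, map_add, smul_eq_mul]
    rw [h5, hone, hr]
    push_cast
    ring
  have hm' : Spec τ (1 + z) (Finsupp.single 2 ((a₀ : ℤ) - r) +
      Finsupp.single 1 ((a₀ : ℤ) - Module.finrank K V + r)) := by
    refine ⟨by simp, fun k hk => ?_⟩
    have h5 := pow_one_add τ z (half_idem τ w h1) k 1
    rw [mul_one, mul_one, hτz, hone] at h5
    rw [sum_two, h5]
    congr 1
    push_cast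
    ring
  have h6 := (spec_bound ρ e he hcomm τ hτ _ _ hm').1
  rw [zdeg_two] at h6
  refine ⟨_, _, hm', ?_, ?_⟩
  · rw [zdeg_two]
    omega
  · rw [zdeg_two]
    refine ⟨(Module.finrank K V - (((a₀ : ℤ) - r).natAbs +
      ((a₀ : ℤ) - Module.finrank K V + r).natAbs)) / 2, ?_⟩
    omega

include he hcomm hτ in
/-- if the projector is realised then some element has no cancellation -/
theorem spec_of_projector (p : A) (hp : ρ p = e) :
    ∃ m, Spec τ (1 + p) m ∧ zdeg m = Module.finrank K V := by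
  obtain ⟨a₀, ha₀, hone⟩ := tau_one ρ e he τ hτ
  have hzz : ∀ g : A, τ (p * (p * g)) = τ (p * g) := by
    intro g
    have h2 : e * (e * ρ g) = e * ρ g := by rw [← mul_assoc, he]
    have h1 : ((τ (p * (p * g)) : ℚ) : K) = (τ (p * g) : K) := by
      rw [← hτ, ← hτ, map_mul ρ, map_mul ρ, hp, h2]
    exact_mod_cast h1
  have hτp : τ p = (a₀ : ℚ) := by
    have h1 : ((τ p : ℚ) : K) = ((a₀ : ℚ) : K) := by
      rw [← hτ, hp, sub_mul, sub_mul, he, one_mul, sub_self, sub_zero, ha₀]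
      push_cast
      rfl
    exact_mod_cast h1
  have hm : Spec τ (1 + p)
      (Finsupp.single 2 (a₀ : ℤ) + Finsupp.single 1 ((a₀ : ℤ) - Module.finrank K V)) := by
    refine ⟨by simp, fun k hk => ?_⟩
    have h1 := pow_one_add τ p hzz k 1
    rw [mul_one, mul_one, hτp, hone] at h1
    rw [sum_two, h1]
    congr 1
    push_cast
    ring
  refine ⟨_, hm, ?_⟩
  have h1 := (spec_bound ρ e he hcomm τ hτ _ _ hm).1
  refine le_antisymm h1 ?_
  rw [zdeg_two]
  omega

end

end Run7.h488.ZD
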