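import Pool.Agent.Run7.h488.ZD.Cat

/-!
# The zeta degree is the parity index
-/

set_option autoImplicit false
set_option linter.unusedSectionVars false

open CategoryTheory Limits MonoidalCategory Polynomial
open Pool.Agent.Y112.SR Pool.Agent.Y112.KD Pool.Agent.Y112.SC Pool.Agent.R905 Pool.Agent.R484.NC

namespace Run7.h488.ZD

universe v u w

section

variable {C : Type u} [Category.{v} C] [Preadditive C] [Linear ℚ C] [MonoidalCategory C]
  [MonoidalPreadditive C] [MonoidalLinear ℚ C] [SymmetricCategory C] [RightRigidCategory C]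

/-- the powers, in the ring of the endomorphisms -/
noncomputable def pwE {M : C} (z : End M) (N : ℕ) : End M := pw (M := M) z N

/-- the lifted projector, in the ring of the endomorphisms -/
noncomputable def liftE {M : C} (z : End M) (N : ℕ) : End M := lift (M := M) z N

lemma pwE_eq {M : C} (z : End M) (N : ℕ) : pwE z N = z ^ N := pw_eq z N

lemma liftE_eq {M : C} (z : End M) (N : ℕ) : liftE z N = 1 - (1 - z ^ N) ^ N := by
  have h3 : liftE z N = 1 - pwE (1 - pwE z N) N := rfl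
  rw [h3, pwE_eq, pwE_eq]

/-- if there is almost no cancellation in the zeta function of `f`, then a polynomial in `f`
realises the parity operator -/
theorem polynomial_of_degree {K : Type w} [Field K] (R : SuperRealisation C K) (hU : UnitQ C)
    {M : C} (f : End M) (m : AlgebraicClosure ℚ →₀ ℤ) (hm : IsSpectrum hU f m)
    (hd : totalDim R M ≤ zetaDegree m + 1) : ∃ g : ℚ[X], R.H.map (aeval f g) = R.par M := by
  have hc := R_charZero R
  obtain ⟨g₀, hg₀, hle⟩ := exists_involution R hU f m hm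
  obtain ⟨r, hr, hfin⟩ := involution_number R hU hg₀
  have hr0 : r = 0 := by
    rw [hr] at hle
    have h1 : (totalDim R M : ℚ) ≤ zetaDegree m + 1 := by exact_mod_cast hd
    have h2 : (2 * r : ℚ) ≤ 1 := by linarith
    have h3 : 2 * r ≤ 1 := by exact_mod_cast h2
    omega
  have he := hfin hr0 (max 1 (totalDim R M)) (le_max_left _ _) (le_max_right _ _)
  set N := max 1 (totalDim R M) with hN
  set z : End M := (2⁻¹ : ℚ) • (1 + aeval f g₀) with hz
  have he' : evp R M = opHom R M (1 - (1 - z ^ N) ^ N) := by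
    rw [he, ← liftE_eq]
    rfl
  set G : ℚ[X] := 2 * (1 - (1 - (Polynomial.C (2⁻¹ : ℚ) * (1 + g₀)) ^ N) ^ N) - 1 with hG
  refine ⟨G, ?_⟩
  have h1 : aeval f G = 2 * (1 - (1 - z ^ N) ^ N) - 1 := by
    rw [hG]
    simp only [map_sub, map_mul, map_pow, map_one, map_add, aeval_C, map_ofNat]
    rw [hz, Algebra.smul_def]
  have h2 : opHom R M (aeval f G) = evp R M - (1 - evp R M) := by
    rw [h1, map_sub, map_mul, ← he', map_one, map_ofNat, two_mul]
    abel
  apply ModuleCat.hom_ext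
  rw [par_hom]
  exact h2

/-- **The zeta degree is the parity index.** -/
theorem main (hU : UnitQ C) {K₀ : Type w} [Field K₀] (R₀ : SuperRealisation C K₀) (M : C) :
    (∀ f : End M, ∃! m, IsSpectrum hU f m) ∧
    ∃ ρ : ℕ,
      IsGreatest {d : ℕ | ∃ (f : End M) (m : AlgebraicClosure ℚ →₀ ℤ),
        IsSpectrum hU f m ∧ zetaDegree m = d} ρ ∧
      IsGreatest {d : ℚ | ∃ w : M ⟶ M, NumInvolution hU w ∧ ctr hU w = d} (ρ : ℚ) ∧
      ∀ {K : Type w} [Field K] (R : SuperRealisation C K),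
        ρ ≤ totalDim R M ∧ Even (totalDim R M - ρ) ∧
        [R.CPlus M, totalDim R M = ρ,
          ∃ (f : End M) (m : AlgebraicClosure ℚ →₀ ℤ), IsSpectrum hU f m ∧
            zetaDegree m = totalDim R M,
          ∃ (f : End M) (m : AlgebraicClosure ℚ →₀ ℤ), IsSpectrum hU f m ∧
            totalDim R M ≤ zetaDegree m + 1].TFAE ∧
        ∀ (f : End M) (m : AlgebraicClosure ℚ →₀ ℤ), IsSpectrum hU f m →
          totalDim R M ≤ zetaDegree m + 1 → ∃ g : ℚ[X], R.H.map (aeval f g) = R.par M := by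
  refine ⟨fun f => exists_unique_spectrum R₀ hU f, ?_⟩
  obtain ⟨ρ, hρ⟩ := exists_index_obj R₀ hU M
  have hup : ∀ (f : End M) (m : AlgebraicClosure ℚ →₀ ℤ), IsSpectrum hU f m →
      zetaDegree m ≤ ρ := by
    intro f m hm
    obtain ⟨g, hg, hle⟩ := exists_involution R₀ hU f m hm
    have h1 := hle.trans (hρ.2 ⟨_, hg, rfl⟩)
    exact_mod_cast h1
  obtain ⟨w₀, hw₀, hw₀r⟩ := hρ.1
  obtain ⟨f₀, m₀, hf₀, hle₀⟩ := exists_of_involution R₀ hU (M := M) w₀ hw₀
  have hm₀ : zetaDegree m₀ = ρ := by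
    refine le_antisymm (hup f₀ m₀ hf₀) ?_
    rw [hw₀r] at hle₀
    exact_mod_cast hle₀
  refine ⟨ρ, ⟨⟨f₀, m₀, hf₀, hm₀⟩, ?_⟩, hρ, fun {K} _ R => ?_⟩
  · rintro d ⟨f, m, hm, rfl⟩
    exact hup f m hm
  · obtain ⟨h1, h2, h3⟩ := index_tfae R hU hρ hw₀ hw₀r
    have e1 : R.CPlus M ↔ totalDim R M = ρ := h3.out 0 2
    have e2 : R.CPlus M ↔ totalDim R M < ρ + 2 := h3.out 0 3
    refine ⟨h1, h2, ?_, fun f m hm hd => polynomial_of_degree R hU f m hm hd⟩
    tfae_have 1 ↔ 2 := e1
    tfae_have 2 → 3 := fun h => ⟨f₀, m₀, hf₀, by rw [hm₀, h]⟩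
    tfae_have 3 → 4 := by
      rintro ⟨f, m, hm, hd⟩
      exact ⟨f, m, hm, by omega⟩
    tfae_have 4 → 1 := by
      rintro ⟨f, m, hm, hd⟩
      have h4 := hup f m hm
      exact e2.2 (by omega)
    tfae_finish

end

end Run7.h488.ZD
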