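import Pool.Agent.Run7.h488.ZD.Alg

/-!
# Sign elements in algebras with a rational trace
-/

set_option autoImplicit false

open Polynomial

namespace Run7.h488.ZD

/-- casts -/
lemma map_intCast_sum_aux {Ω : Type*} [Field Ω] [Algebra ℚ Ω] (s : Finset Ω) (m : Ω → ℤ) :
    algebraMap ℚ Ω (∑ x ∈ s, (m x : ℚ)) = ∑ x ∈ s, (m x : Ω) := by
  rw [map_sum]
  refine Finset.sum_congr rfl fun x _ => ?_
  rw [map_intCast]

section

variable {A : Type*} [Ring A] [Algebra ℚ A] {K : Type*} [Field K] [CharZero K]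
  {V : Type*} [AddCommGroup V] [Module K V] [Module.Finite K V]
  (ρ : A →+* Module.End K V) (T : Module.End K V →ₗ[K] K) (τ : A →ₗ[ℚ] ℚ)
  (hτ : ∀ a, T (ρ a) = (τ a : K))

include hτ

/-- some polynomial in `f` is in the kernel of the trace form -/
lemma exists_annihilator (f : A) : ∃ μ : ℚ[X], μ ≠ 0 ∧ ∀ g : A, τ (aeval f μ * g) = 0 := by
  classical
  obtain ⟨s, hs, hspan⟩ := (Submodule.fg_span_iff_fg_span_finset_subset
    (R := K) (Set.range ρ)).1 (IsNoetherian.noetherian _)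
  choose g hg using fun x : s => hs x.2
  let F : ℚ[X] →ₗ[ℚ] (s → ℚ) :=
    (LinearMap.pi fun x => τ ∘ₗ LinearMap.mulRight ℚ (g x)) ∘ₗ (aeval f).toLinearMap
  have hF : ¬ Function.Injective F := by
    intro h
    have h1 : Module.Finite ℚ ℚ[X] := Module.Finite.of_injective F h
    exact Polynomial.not_finite h1
  have h1 : ∃ μ : ℚ[X], F μ = 0 ∧ μ ≠ 0 := by
    by_contra hne
    push Not at hne
    exact hF ((injective_iff_map_eq_zero F).2 hne)
  obtain ⟨μ, hμ, h0⟩ := h1
  refine ⟨μ, h0, fun b => ?_⟩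
  let T' : Module.End K V →ₗ[K] K := T ∘ₗ LinearMap.mulLeft K (ρ (aeval f μ))
  have h1 : ρ b ∈ Submodule.span K (Set.range ρ) := Submodule.subset_span ⟨b, rfl⟩
  rw [hspan] at h1
  have h2 : Submodule.span K (s : Set (Module.End K V)) ≤ LinearMap.ker T' := by
    rw [Submodule.span_le]
    intro x hx
    have h3 := congrFun hμ ⟨x, hx⟩
    have h4 : τ (aeval f μ * g ⟨x, hx⟩) = 0 := h3
    have h5 : ρ (g ⟨x, hx⟩) = x := hg ⟨x, hx⟩
    have h6 := hτ (aeval f μ * g ⟨x, hx⟩)
    rw [h4, Rat.cast_zero, map_mul, h5] at h6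
    exact h6
  have h3 : T' (ρ b) = 0 := h2 h1
  have h4 := hτ (aeval f μ * b)
  rw [map_mul] at h4
  have h5 : ((τ (aeval f μ * b) : ℚ) : K) = 0 := h4.symm.trans h3
  exact Rat.cast_eq_zero.1 h5

/-- **a numerical involution from the spectrum of `f`** -/
theorem sign_element {Ω : Type*} [Field Ω] [Algebra ℚ Ω] [Normal ℚ Ω] (f : A) (m : Ω →₀ ℤ)
    (h0 : m 0 = 0)
    (hm : ∀ k : ℕ, 1 ≤ k → m.sum (fun x c => (c : Ω) * x ^ k) = algebraMap ℚ Ω (τ (f ^ k))) :
    ∃ g : ℚ[X], (∀ b, τ ((aeval f g * aeval f g - 1) * b) = 0) ∧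
      ((m.sum (fun _ c => |c|) : ℤ) : ℚ) ≤ τ (aeval f g) := by
  classical
  obtain ⟨μ, hμ0, hμ⟩ := exists_annihilator ρ T τ hτ f
  let L : ℚ[X] →ₗ[ℚ] ℚ := τ ∘ₗ (aeval f).toLinearMap
  have hLdef : ∀ p, L p = τ (aeval f p) := fun p => rfl
  -- the multiplicities, with the multiplicity of zero
  let e : ℚ := τ 1 - ∑ x ∈ m.support, (m x : ℚ)
  let n : Ω → ℚ := fun x => if x = 0 then e else (m x : ℚ)
  let S : Finset Ω := insert 0 m.support
  have h0S : (0 : Ω) ∉ m.support := by simp [h0]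
  have hS : ∀ x, x ∉ S → n x = 0 := by
    intro x hx
    have h1 : x ≠ 0 := fun h => hx (by rw [h]; exact Finset.mem_insert_self _ _)
    have h2 : x ∉ m.support := fun h => hx (Finset.mem_insert_of_mem h)
    simp only [n, if_neg h1]
    rw [Finsupp.notMem_support_iff.1 h2, Int.cast_zero]
  have hn0 : n 0 = e := if_pos rfl
  have hn1 : ∀ x ∈ m.support, n x = (m x : ℚ) := by
    intro x hx
    have h1 : x ≠ 0 := fun h => h0S (h ▸ hx)
    exact if_neg h1
  have hpow : ∀ k : ℕ, ∑ x ∈ S, algebraMap ℚ Ω (n x) * x ^ k = algebraMap ℚ Ω (L (X ^ k)) := by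
    intro k
    rw [Finset.sum_insert h0S, hn0, hLdef, map_pow, aeval_X]
    have h1 : ∑ x ∈ m.support, algebraMap ℚ Ω (n x) * x ^ k =
        ∑ x ∈ m.support, (m x : Ω) * x ^ k := by
      refine Finset.sum_congr rfl fun x hx => ?_
      rw [hn1 x hx, map_intCast]
    rw [h1]
    rcases Nat.eq_zero_or_pos k with rfl | hk
    · simp only [pow_zero, mul_one]
      rw [← map_intCast_sum_aux m.support m, ← map_add]
      congr 1
      simp only [e]
      ring
    · rw [zero_pow hk.ne', mul_zero, zero_add]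
      exact hm k hk
  have hL : ∀ p : ℚ[X], ∑ x ∈ S, algebraMap ℚ Ω (n x) * aeval x p = algebraMap ℚ Ω (L p) := by
    intro p
    induction p using Polynomial.induction_on' with
    | add p q hp hq =>
      rw [map_add, map_add, ← hp, ← hq, ← Finset.sum_add_distrib]
      refine Finset.sum_congr rfl fun x _ => ?_
      rw [map_add, mul_add]
    | monomial k c =>
      have h1 : (monomial k c : ℚ[X]) = c • X ^ k := by
        rw [← Polynomial.C_mul_X_pow_eq_monomial, Polynomial.smul_eq_C_mul]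
      rw [h1, map_smul, smul_eq_mul, map_mul, ← hpow k, Finset.mul_sum]
      refine Finset.sum_congr rfl fun x _ => ?_
      rw [map_smul, map_pow, aeval_X, Algebra.smul_def]
      ring
  have hμ' : ∀ p, L (μ * p) = 0 := by
    intro p
    rw [hLdef, map_mul]
    exact hμ _
  obtain ⟨g, ⟨q, hq⟩, hg⟩ := sign_poly L S n hS hL μ hμ0 hμ'
  refine ⟨g, fun b => ?_, ?_⟩
  · have h1 : aeval f g * aeval f g - 1 = aeval f μ * aeval f q := by
      rw [← map_mul, ← map_mul, ← hq, map_sub, map_one]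
    rw [h1, mul_assoc]
    exact hμ _
  · have h1 : L g = τ (aeval f g) := rfl
    rw [← h1, hg, Finset.sum_insert h0S]
    have h2 : ∑ x ∈ m.support, |n x| = ((m.sum (fun _ c => |c|) : ℤ) : ℚ) := by
      rw [Finsupp.sum, Int.cast_sum]
      refine Finset.sum_congr rfl fun x hx => ?_
      rw [hn1 x hx, Int.cast_abs]
    rw [h2]
    linarith [abs_nonneg (n 0)]

omit hτ [Algebra ℚ A] in
/-- the powers of `1 + z` for a numerical idempotent `z` -/
lemma pow_one_add [Algebra ℚ A] (τ : A →ₗ[ℚ] ℚ) (z : A) (hz : ∀ g, τ (z * (z * g)) = τ (z * g)) (k : ℕ) :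
    ∀ g, τ ((1 + z) ^ k * g) = τ g + (2 ^ k - 1) * τ (z * g) := by
  induction k with
  | zero => intro g; rw [pow_zero, one_mul, pow_zero]; ring
  | succ k ih =>
    intro g
    rw [pow_succ, mul_assoc, ih, add_mul, one_mul, mul_add, map_add, map_add, hz, pow_succ]
    ring

end

end Run7.h488.ZD
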