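import Pool.Agent.Run7.h488.ZD.Var

/-!
# One polynomial for all Weil cohomologies
-/

set_option autoImplicit false

open CategoryTheory AlgebraicGeometry Polynomial

universe u v

namespace Run7.h488.ZD

section Ring

variable {A : Type*} [Ring A] [Algebra ℚ A]
  {K : Type*} [Field K] [CharZero K]
  {V : Type*} [AddCommGroup V] [Module K V] [Module.Finite K V]
  (ρ : A →+* Module.End K V) (e : Module.End K V) (he : e * e = e)
  (hcomm : ∀ a, Commute (ρ a) e) (τ : A →ₗ[ℚ] ℚ)
  (hτ : ∀ a, LinearMap.trace K V ((e - (1 - e)) * ρ a) = (τ a : K))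

/-- the polynomial for the projector -/
noncomputable def projPoly (g : ℚ[X]) (N : ℕ) : ℚ[X] :=
  1 - (1 - (Polynomial.C (2⁻¹ : ℚ) * (1 + g)) ^ N) ^ N

include he hcomm hτ in
lemma of_involution (f : A) (g : ℚ[X]) (h1 : ∀ b, τ ((aeval f g * aeval f g - 1) * b) = 0) (d : ℕ)
    (h2 : (d : ℚ) ≤ τ (aeval f g)) (hd : Module.finrank K V ≤ d + 1) (N : ℕ) (hN1 : 1 ≤ N)
    (hN : Module.finrank K V ≤ N) : ρ (aeval f (projPoly g N)) = e := by
  obtain ⟨r, hr, hfin⟩ := involution_ring ρ e he hcomm τ hτ (aeval f g) h1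
  rw [hr] at h2
  have h3 : (d : ℚ) + 2 * r ≤ Module.finrank K V := by linarith
  have h4 : d + 2 * r ≤ Module.finrank K V := by exact_mod_cast h3
  have he' := hfin (by omega) N hN1 hN
  rw [he']
  have h5 : aeval f (projPoly g N) =
      1 - (1 - ((2⁻¹ : ℚ) • (1 + aeval f g)) ^ N) ^ N := by
    simp only [projPoly, map_sub, map_mul, map_pow, map_one, map_add, aeval_C]
    rw [Algebra.smul_def]
  rw [h5]
  simp only [map_sub, map_pow, map_one]

end Ring

open Pool.Agent.H914 VarClass Obj WeilCohomology Pool.Agent.H447 Pool.Agent.H578R3.Sgn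

variable {k : Type u} [Field k] {𝒱 : VarClass k} {ops : CycleOps 𝒱} {X : 𝒱.Obj}

/-- the super traces of the polynomials in a cycle do not depend on the Weil cohomology -/
lemma poly_trace {z y : (X.prod X).Cycles} (hz : (X.prod X).IsCyc X.dim z)
    (hy : (X.prod X).IsCyc X.dim y) (p : ℚ[X]) :
    ∃ q : ℚ, ∀ W : WeilCohomology.{u, v} ops, sTrace (aeval (opOf W hz) p * opOf W hy) = q := by
  have hZ : Realized.{u, v} ops X 0 (fun W => W.corr (W.cl _ z)) :=
    Or.inl ⟨X.dim, by simp, z, hz, fun _ => rfl⟩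
  have hY : Realized.{u, v} ops X 0 (fun W => W.corr (W.cl _ y)) :=
    Or.inl ⟨X.dim, by simp, y, hy, fun _ => rfl⟩
  have hR := (hZ.ev p).mul hY
  rcases hR with ⟨q, hq, c, hc, hcW⟩ | ⟨hd, -⟩
  · obtain rfl : q = X.dim := by omega
    refine ⟨diagNumber ops X c, fun W => ?_⟩
    have h1 := sTrace_spec (aeval (opOf W hz) p * opOf W hy)
    rw [← par_eq, map_mul (cycRing W X).subtype, subtype_aeval] at h1
    have h2 : aeval ((cycRing W X).subtype (opOf W hz)) (p.map (algebraMap ℚ W.K)) *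
        (cycRing W X).subtype (opOf W hy) = W.corr (W.cl _ c) := hcW W
    rw [h2, diagNumber_eq W hc] at h1
    exact_mod_cast h1.symm
  · omega

/-- one polynomial for all Weil cohomologies -/
theorem uniform (W₀ : WeilCohomology.{u, v} ops) {z : (X.prod X).Cycles}
    (hz : (X.prod X).IsCyc X.dim z) (m : AlgebraicClosure ℚ →₀ ℤ) (hm : Spectrum ops X z m) :
    ∃ g : ℚ[X], ∀ W : WeilCohomology.{u, v} ops,
      Module.finrank W.K (W.H X) ≤ zetaDeg m + 1 →
        IsEvenProj (W.gr X) (ev (W.corr (W.cl (X.prod X) z)) g) := by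
  rw [spectrum_iff W₀ hz] at hm
  have hn := normal_closure
  let T : Module.End W₀.K (W₀.H X) →ₗ[W₀.K] W₀.K := LinearMap.trace W₀.K (W₀.H X) ∘ₗ
    LinearMap.mulLeft W₀.K (evenProj (W₀.isInternal X) - (1 - evenProj (W₀.isInternal X)))
  obtain ⟨g, h1, h2⟩ := sign_element (cycRing W₀ X).subtype T sTrace sTrace_spec (opOf W₀ hz) m
    hm.1 hm.2
  rw [zdeg_eq] at h2
  obtain ⟨δ, hδ, hδ'⟩ := diag_props.{u, v} (ops := ops) (X := X)
  have hone : ∀ W : WeilCohomology.{u, v} ops, opOf W hδ = 1 := fun W => Subtype.ext (hδ' W)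
  refine ⟨projPoly g (zetaDeg m + 1), fun W hW => ?_⟩
  have h1W : ∀ b : cycRing W X,
      sTrace ((aeval (opOf W hz) g * aeval (opOf W hz) g - 1) * b) = 0 := by
    intro b
    obtain ⟨y, hy, rfl⟩ := exists_opOf b
    obtain ⟨q, hq⟩ := poly_trace.{u, v} (ops := ops) hz hy (g * g - 1)
    have h3 := hq W
    have h4 := hq W₀
    have h5 : aeval (opOf W hz) (g * g - 1) =
        aeval (opOf W hz) g * aeval (opOf W hz) g - 1 := by rw [map_sub, map_mul, map_one]
    have h6 : aeval (opOf W₀ hz) (g * g - 1) =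
        aeval (opOf W₀ hz) g * aeval (opOf W₀ hz) g - 1 := by rw [map_sub, map_mul, map_one]
    rw [h5] at h3
    rw [h6] at h4
    rw [h3, ← h4, h1]
  have h2W : (zetaDeg m : ℚ) ≤ sTrace (aeval (opOf W hz) g) := by
    obtain ⟨q, hq⟩ := poly_trace.{u, v} (ops := ops) hz hδ g
    have h3 := hq W
    have h4 := hq W₀
    rw [hone, mul_one] at h3 h4
    rw [h3, ← h4]
    exact h2
  have h5 := of_involution (cycRing W X).subtype _ (evenProj_idem (W.isInternal X)) comm_even
    sTrace sTrace_spec (opOf W hz) g h1W (zetaDeg m) h2W hW (zetaDeg m + 1) (by omega) hW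
  rw [isEvenProj_iff, ← h5, subtype_aeval]
  rfl

end Run7.h488.ZD
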