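import Pool.Agent.H578R3.SgnDefs
import Mathlib.FieldTheory.IsAlgClosed.AlgebraicClosure

/-!
# Spectra of correspondences: definitions
-/

open CategoryTheory AlgebraicGeometry

universe u v

namespace Run7.h488.ZD

open Pool.Agent.H914 VarClass Obj WeilCohomology Pool.Agent.H447 Pool.Agent.H578R3.Sgn

/-- The number of zeros and poles, counted with multiplicities. -/
noncomputable def zetaDeg (m : AlgebraicClosure ℚ →₀ ℤ) : ℕ := m.sum fun _ c => c.natAbs

variable {k : Type u} [Field k] {𝒱 : VarClass k}

/-- The iterated composition of the cycle `z` with itself, with `r + 1` factors. -/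
noncomputable def iterComp (ops : CycleOps 𝒱) {X : 𝒱.Obj} (z : (X.prod X).Cycles) :
    ℕ → (X.prod X).Cycles
  | 0 => z
  | r + 1 => compCyc ops (iterComp ops z r) z

/-- The spectrum of the cycle `z` on `X × X`: `m` assigns to every nonzero algebraic number an
integer, almost always zero, in such a way that the intersection number of the `r`-fold composition
of `z` with the diagonal is the sum of the `m x * x ^ r`, for all `r` greater than zero. In other
words: the zeta function of `z`, the exponential of the sum of these intersection numbers times
`t ^ r / r`, is the product of the `(1 - x t) ^ (- m x)`. -/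
def Spectrum (ops : CycleOps 𝒱) (X : 𝒱.Obj) (z : (X.prod X).Cycles)
    (m : AlgebraicClosure ℚ →₀ ℤ) : Prop :=
  m 0 = 0 ∧ ∀ r : ℕ, m.sum (fun x c => (c : AlgebraicClosure ℚ) * x ^ (r + 1)) =
    algebraMap ℚ (AlgebraicClosure ℚ) (diagNumber ops X (iterComp ops z r))

end Run7.h488.ZD
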