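import Pool.Agent.Run7.h488.ZD.Index
import Pool.Agent.Run7.h488.ZD.VarDefs
import Pool.Agent.H578R3.SgnCyc
import Pool.Agent.H447R3.WtB

/-!
# Zeta degrees of correspondences and the sign conjecture
-/

set_option autoImplicit false

open CategoryTheory AlgebraicGeometry Polynomial

universe u v

namespace Run7.h488.ZD

open Pool.Agent.H914 VarClass Obj WeilCohomology Pool.Agent.H447 Pool.Agent.H578R3.Sgn

variable {k : Type u} [Field k] {𝒱 : VarClass k} {ops : CycleOps 𝒱}

/-- the ring of the operators of degree zero which are induced by cycles -/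
def cycRing (W : WeilCohomology.{u, v} ops) (X : 𝒱.Obj) : Subring (Module.End W.K (W.H X)) where
  carrier := {y | ROp W X 0 y}
  mul_mem' := fun ha hb => rop_mul0 ha hb
  one_mem' := rop_opAlg.one
  add_mem' := fun ha hb => rop_opAlg.add ha hb
  zero_mem' := rop_opAlg.zero 0
  neg_mem' := fun ha => rop_opAlg.neg ha

variable {W : WeilCohomology.{u, v} ops} {X : 𝒱.Obj}

lemma mem_cycRing {y : Module.End W.K (W.H X)} : y ∈ cycRing W X ↔ ROp W X 0 y := Iff.rfl

/-- the structure of a rational algebra -/
noncomputable instance : Algebra ℚ (cycRing W X) :=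
  RingHom.toAlgebra'
    { toFun := fun q => ⟨(q : W.K) • (1 : Module.End W.K (W.H X)),
        rop_opAlg.smul q rop_opAlg.one⟩
      map_one' := by apply Subtype.ext; simp
      map_mul' := by
        intro a b; apply Subtype.ext
        change ((a * b : ℚ) : W.K) • (1 : Module.End W.K (W.H X)) =
          ((a : W.K) • (1 : Module.End W.K (W.H X))) * ((b : W.K) • (1 : Module.End W.K (W.H X)))
        rw [smul_mul_smul_comm, mul_one, Rat.cast_mul]
      map_zero' := by apply Subtype.ext; simp
      map_add' := by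
        intro a b; apply Subtype.ext
        change ((a + b : ℚ) : W.K) • (1 : Module.End W.K (W.H X)) =
          ((a : W.K) • (1 : Module.End W.K (W.H X))) + ((b : W.K) • (1 : Module.End W.K (W.H X)))
        rw [← add_smul, Rat.cast_add] }
    (by
      intro q x
      apply Subtype.ext
      change ((q : W.K) • (1 : Module.End W.K (W.H X))) * (x : Module.End W.K (W.H X)) =
        (x : Module.End W.K (W.H X)) * ((q : W.K) • (1 : Module.End W.K (W.H X)))
      rw [smul_mul_assoc, mul_smul_comm, one_mul, mul_one])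

lemma coe_smul (q : ℚ) (x : cycRing W X) :
    ((q • x : cycRing W X) : Module.End W.K (W.H X)) = (q : W.K) • (x : Module.End W.K (W.H X)) := by
  rw [Algebra.smul_def]
  change ((q : W.K) • (1 : Module.End W.K (W.H X))) * (x : Module.End W.K (W.H X)) = _
  rw [smul_mul_assoc, one_mul]

/-- the super trace of an operator which is induced by a cycle, as a function -/
noncomputable def stFun (x : cycRing W X) : ℚ :=
  (rop_str (x : Module.End W.K (W.H X)) x.2).choose

lemma stFun_spec (x : cycRing W X) :
    LinearMap.trace W.K (W.H X) (par (W.isInternal X) * (x : Module.End W.K (W.H X))) =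
      (stFun x : W.K) :=
  (rop_str (x : Module.End W.K (W.H X)) x.2).choose_spec

/-- the super trace of an operator which is induced by a cycle -/
noncomputable def sTrace : cycRing W X →ₗ[ℚ] ℚ where
  toFun x := stFun x
  map_add' := by
    intro x y
    have h3 := stFun_spec (x + y)
    have h4 : ((x + y : cycRing W X) : Module.End W.K (W.H X)) = x + y := rfl
    rw [h4, mul_add, map_add, stFun_spec, stFun_spec] at h3
    exact_mod_cast h3.symm
  map_smul' := by
    intro q x
    have h3 := stFun_spec (q • x)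
    rw [coe_smul, mul_smul_comm, map_smul, stFun_spec, smul_eq_mul] at h3
    rw [RingHom.id_apply, smul_eq_mul]
    exact_mod_cast h3.symm

lemma sTrace_spec (x : cycRing W X) :
    LinearMap.trace W.K (W.H X) ((evenProj (W.isInternal X) - (1 - evenProj (W.isInternal X))) *
      (cycRing W X).subtype x) = (sTrace x : W.K) := by
  rw [← par_eq]
  exact stFun_spec x

/-- the operator of a cycle -/
noncomputable def opOf (W : WeilCohomology.{u, v} ops) {z : (X.prod X).Cycles}
    (hz : (X.prod X).IsCyc X.dim z) : cycRing W X :=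
  ⟨W.corr (W.cl _ z), rop_of_cyc hz⟩

lemma iterComp_mem {z : (X.prod X).Cycles} (hz : (X.prod X).IsCyc X.dim z) (r : ℕ) :
    (X.prod X).IsCyc X.dim (iterComp ops z r) := by
  induction r with
  | zero => exact hz
  | succ r ih => exact compCyc_mem ih hz rfl

lemma corr_iterComp (W : WeilCohomology.{u, v} ops) {z : (X.prod X).Cycles}
    (hz : (X.prod X).IsCyc X.dim z) (r : ℕ) :
    W.corr (W.cl _ (iterComp ops z r)) = W.corr (W.cl _ z) ^ (r + 1) := by
  induction r with
  | zero => rw [zero_add, pow_one]; rfl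
  | succ r ih =>
    change W.corr (W.cl _ (compCyc ops (iterComp ops z r) z)) = _
    rw [corr_compCyc W hz, ih]
    exact (pow_succ' (W.corr (W.cl _ z)) (r + 1)).symm

lemma sTrace_pow (W : WeilCohomology.{u, v} ops) {z : (X.prod X).Cycles}
    (hz : (X.prod X).IsCyc X.dim z) (r : ℕ) :
    sTrace (opOf W hz ^ (r + 1)) = diagNumber ops X (iterComp ops z r) := by
  have h1 := sTrace_spec (opOf W hz ^ (r + 1))
  rw [← par_eq, map_pow] at h1
  change LinearMap.trace W.K (W.H X) (par (W.isInternal X) * W.corr (W.cl _ z) ^ (r + 1)) = _ at h1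
  rw [← corr_iterComp W hz, diagNumber_eq W (iterComp_mem hz r)] at h1
  exact_mod_cast h1.symm

/-- the spectrum in terms of the ring -/
lemma spectrum_iff (W : WeilCohomology.{u, v} ops) {z : (X.prod X).Cycles}
    (hz : (X.prod X).IsCyc X.dim z) (m : AlgebraicClosure ℚ →₀ ℤ) :
    Spectrum ops X z m ↔ Spec (sTrace (W := W) (X := X)) (opOf W hz) m := by
  constructor
  · rintro ⟨h1, h2⟩
    refine ⟨h1, fun r hr => ?_⟩
    obtain ⟨r, rfl⟩ : ∃ r', r = r' + 1 := ⟨r - 1, by omega⟩
    rw [h2, sTrace_pow]
  · rintro ⟨h1, h2⟩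
    refine ⟨h1, fun r => ?_⟩
    rw [h2 (r + 1) (by omega), sTrace_pow]

lemma exists_opOf (x : cycRing W X) : ∃ z, ∃ hz : (X.prod X).IsCyc X.dim z, opOf W hz = x := by
  obtain ⟨z, hz, h⟩ := cyc_of_rop (W := W) x.2
  exact ⟨z, hz, Subtype.ext h⟩

lemma comm_even (x : cycRing W X) :
    Commute ((cycRing W X).subtype x) (evenProj (W.isInternal X)) := by
  apply evenProj_comm
  have := (rop_opAlg (W := W) (X := X)).hom x.2
  simpa using this

lemma subtype_aeval (x : cycRing W X) (g : ℚ[X]) :
    (cycRing W X).subtype (aeval x g) =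
      aeval ((cycRing W X).subtype x) (g.map (algebraMap ℚ W.K)) := by
  induction g using Polynomial.induction_on' with
  | add p q hp hq => rw [map_add, map_add, hp, hq, Polynomial.map_add, map_add]
  | monomial n a =>
    rw [aeval_monomial, Polynomial.map_monomial, aeval_monomial, map_mul, map_pow]
    congr 1

/-- everything for one Weil cohomology -/
theorem one_W (W : WeilCohomology.{u, v} ops) (X : 𝒱.Obj) :
    (∀ z, (X.prod X).IsCyc X.dim z → ∃! m, Spectrum ops X z m) ∧
    (∀ z m, (X.prod X).IsCyc X.dim z → Spectrum ops X z m →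
      zetaDeg m ≤ Module.finrank W.K (W.H X) ∧
      (Module.finrank W.K (W.H X) ≤ zetaDeg m + 1 → ∃ g : ℚ[X], IsEvenProj (W.gr X)
        (aeval (W.corr (W.cl (X.prod X) z)) (g.map (algebraMap ℚ W.K)))) ∧
      ∃ z' m', (X.prod X).IsCyc X.dim z' ∧ Spectrum ops X z' m' ∧ zetaDeg m ≤ zetaDeg m' ∧
        ∃ r : ℕ, Module.finrank W.K (W.H X) = zetaDeg m' + 2 * r) ∧
    (SignStd W X → ∃ z m, (X.prod X).IsCyc X.dim z ∧ Spectrum ops X z m ∧
      zetaDeg m = Module.finrank W.K (W.H X)) ∧
    ∀ x : cycRing W X, ∀ g : ℚ[X], IsEvenProj (W.gr X) ((cycRing W X).subtype (aeval x g)) →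
      SignStd W X := by
  have he := evenProj_idem (W.isInternal X)
  have hc := comm_even (W := W) (X := X)
  have ht := sTrace_spec (W := W) (X := X)
  refine ⟨?_, ?_, ?_, ?_⟩
  · intro z hz
    simp only [spectrum_iff W hz]
    exact spec_unique (cycRing W X).subtype _ he hc _ ht _
  · intro z m hz hm
    rw [spectrum_iff W hz] at hm
    obtain ⟨h1, h2⟩ := spec_bound (cycRing W X).subtype _ he hc _ ht _ m hm
    refine ⟨h1, fun h3 => ?_, ?_⟩
    · obtain ⟨g, hg⟩ := h2 h3
      refine ⟨g, isEvenProj_iff.2 ?_⟩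
      rw [← hg, subtype_aeval]
      rfl
    · obtain ⟨f', m', h4, h5, h6⟩ := spec_improve (cycRing W X).subtype _ he hc _ ht _ m hm
      obtain ⟨z', hz', rfl⟩ := exists_opOf f'
      exact ⟨z', m', hz', (spectrum_iff W hz' m').2 h4, h5, h6⟩
  · rintro ⟨P, hP, hP'⟩
    obtain ⟨m, h4, h5⟩ := spec_of_projector (cycRing W X).subtype _ he hc _ ht (opOf W hP)
      (isEvenProj_iff.1 hP')
    obtain ⟨z', hz', h6⟩ := exists_opOf (1 + opOf W hP)
    refine ⟨z', m, hz', (spectrum_iff W hz' m).2 ?_, h5⟩
    rw [h6]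
    exact h4
  · intro x g h
    obtain ⟨z, hz, h1⟩ := exists_opOf (aeval x g)
    refine ⟨z, hz, ?_⟩
    rw [← h1] at h
    exact h

end Run7.h488.ZD
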